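import Pool.Agent.H.MP_5de61a_co.B

namespace Pool.Agent.Results.MP_5de61a_co.Excess

/-- sizes of the bisections of `G` -/
def bis {n : ℕ} (G : SimpleGraph (Fin n)) : Set ℕ :=
  {k | ∃ A : Finset (Fin n), A.card ≤ Aᶜ.card ∧ Aᶜ.card ≤ A.card + 1 ∧
    k = {p : Fin n × Fin n | p.1 ∈ A ∧ p.2 ∉ A ∧ G.Adj p.1 p.2}.ncard}

/-- the values of the largest bisection over graphs with `m` edges and minimum degree `≥ δ` -/
def vals (δ m : ℕ) : Set ℕ :=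
  {k | ∃ (n : ℕ) (G : SimpleGraph (Fin n)), G.edgeSet.ncard = m ∧
    (∀ v, δ ≤ (G.neighborSet v).ncard) ∧ IsGreatest (bis G) k}

open Pool.Agent.H.MP_5de61a_co

lemma cut_eq {n : ℕ} (G : SimpleGraph (Fin n)) [DecidableRel G.Adj] (A : Finset (Fin n)) :
    {p : Fin n × Fin n | p.1 ∈ A ∧ p.2 ∉ A ∧ G.Adj p.1 p.2}.ncard = cut G A := by
  rw [cut, ← Set.ncard_coe_finset]
  simp

lemma deg_eq {n : ℕ} (G : SimpleGraph (Fin n)) [DecidableRel G.Adj] (v : Fin n) :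
    (G.neighborSet v).ncard = G.degree v := by
  rw [← SimpleGraph.card_neighborFinset_eq_degree, ← Set.ncard_coe_finset,
    SimpleGraph.coe_neighborFinset]

lemma edge_eq {n : ℕ} (G : SimpleGraph (Fin n)) [DecidableRel G.Adj] :
    G.edgeSet.ncard = G.edgeFinset.card := by
  rw [← Set.ncard_coe_finset, SimpleGraph.coe_edgeFinset]

theorem result (δ : ℕ) (hδ : 1 ≤ δ) : ∃ m₀ : ℕ, ∀ m, m₀ ≤ m → ∃ b, IsLeast (vals δ m) b ∧
    2 * m + δ * (δ + 1) ≤ 4 * b ∧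
    4 * b ≤ 2 * m + δ * (δ + 1) + 2 * ((m + δ * (δ + 1) / 2) % (2 * δ)) := by
  classical
  refine ⟨δ * (δ + 1) * (δ * (δ + 1) + 2 ^ (δ * (δ + 1)) * δ) + 1 + 2 * δ * (2 * δ), fun m hm => ?_⟩
  have hlow : ∀ k ∈ vals δ m, 2 * m + δ * (δ + 1) ≤ 4 * k := by
    rintro k ⟨n, G, h1, h2, h3⟩
    rw [edge_eq] at h1
    obtain ⟨A, a1, a2, a3⟩ := lower G δ (fun v => deg_eq G v ▸ h2 v) (by omega)
    have := h3.2 ⟨A, a1, a2, (cut_eq G A).symm⟩
    omega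
  obtain ⟨j, hj⟩ : ∃ j, δ * (δ + 1) = 2 * j := by
    obtain ⟨j, hj⟩ := Nat.even_mul_succ_self δ
    exact ⟨j, by omega⟩
  have hj2 : δ * (δ + 1) / 2 = j := by omega
  rw [hj2]
  set c := (m + j) % (2 * δ) with hc
  set h := (m + j) / (2 * δ) with hh
  have e1 : 2 * δ * h + c = m + j := Nat.div_add_mod _ _
  have hc2 : c < 2 * δ := Nat.mod_lt _ (by omega)
  have hh2 : 2 * δ ≤ h := by
    rw [hh, Nat.le_div_iff_mul_le (by omega)]; omega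
  obtain ⟨N, hN⟩ : ∃ N, δ + N = 2 * h := ⟨2 * h - δ, by omega⟩
  have hE := Ex_edges N δ c (by omega)
  have hm2 : (Ex (δ + N) δ c).edgeFinset.card = m := by
    have : δ * (δ + N) = δ * (2 * h) := by rw [hN]
    nlinarith
  have hdeg : ∀ v, δ ≤ (Ex (δ + N) δ c).degree v := by
    intro v
    rw [Ex_deg _ _ _ (by omega)]
    split_ifs <;> omega
  have hub : ∀ k ∈ bis (Ex (δ + N) δ c), k ≤ δ * h + c := by
    rintro k ⟨A, a1, a2, rfl⟩
    have := Finset.card_add_card_compl A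
    rw [Fintype.card_fin] at this
    rw [cut_eq]
    exact Ex_cut _ δ c h A (by omega) (by omega)
  obtain ⟨A, a1, a2, -⟩ := lower (Ex (δ + N) δ c) δ hdeg (by omega)
  have hmem : sSup (bis (Ex (δ + N) δ c)) ∈ bis (Ex (δ + N) δ c) :=
    Nat.sSup_mem ⟨_, A, a1, a2, rfl⟩ ⟨_, hub⟩
  have hv : sSup (bis (Ex (δ + N) δ c)) ∈ vals δ m :=
    ⟨_, Ex (δ + N) δ c, by rw [edge_eq, hm2], fun v => by rw [deg_eq]; exact hdeg v,
      hmem, fun k hk => le_csSup ⟨_, hub⟩ hk⟩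
  have hb := Nat.sInf_mem ⟨_, hv⟩
  refine ⟨sInf (vals δ m), ⟨hb, fun k hk => Nat.sInf_le hk⟩, hlow _ hb, ?_⟩
  have := (Nat.sInf_le hv).trans (hub _ hmem)
  nlinarith

end Pool.Agent.Results.MP_5de61a_co.Excess
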